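import Mathlib

/-!
# Disconnected constancy regions of mixed test ideals

In `k[x, y]`, `k` perfect of characteristic `p > 0`, let `𝔞_1 = (y^4, x^2 y)` and
`𝔞_2 = (x^3 y^7, x^4 y^3)`. The mixed test ideal `τ(𝔞_1^{t_1} 𝔞_2^{t_2})` equals `(x, y^2)` for
`t = (9/10, 0)` and for `t = (0, 8/25)`, but for no `t` with `t_1 = t_2`.
-/

namespace Pool.Agent.Results.MP_e15572_ag.DisconnectedRegion

open MvPolynomial

/-! ### The notions of the problem -/

section Defs

variable {R : Type*} [CommRing R]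

/-- The Frobenius power `I^{[q]}`, generated by the `q`-th powers of the elements of `I`. -/
def frobPow (q : ℕ) (I : Ideal R) : Ideal R := Ideal.span ((fun g : R => g ^ q) '' (I : Set R))

/-- `𝔟^{[1/q]}`, the smallest ideal `J` with `𝔟 ⊆ J^{[q]}` (the intersection of all these). -/
def frobRoot (q : ℕ) (b : Ideal R) : Ideal R := sInf {J | b ≤ frobPow q J}

/-- The mixed test ideal `τ(𝔞^𝐭) = ⋃_e (∏_i 𝔞_i^{⌈t_i p^e⌉})^{[1/p^e]}` (an increasing union). -/
noncomputable def testIdeal (p : ℕ) {n : ℕ} (a : Fin n → Ideal R) (t : Fin n → ℝ) : Ideal R :=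
  ⨆ e : ℕ, frobRoot (p ^ e) (∏ i, a i ^ ⌈t i * (p : ℝ) ^ e⌉₊)

/-- The constancy region of `τ(𝔞^𝐜)`. -/
def region (p : ℕ) {n : ℕ} (a : Fin n → Ideal R) (c : Fin n → ℝ) : Set (Fin n → ℝ) :=
  {c' | (∀ i, 0 ≤ c' i) ∧ testIdeal p a c' = testIdeal p a c}

end Defs

/-! ### Splittings of Frobenius -/

section Dual

variable {p : ℕ} [Fact p.Prime] {k : Type*} [Field k] [CharP k p] [PerfectRing k p]

/-- The dual basis element: `x ^ m ↦ x ^ (m / q)` if `m ≡ α` modulo `q`, else `0`, taking `q`-th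
roots of the coefficients. -/
noncomputable def dualMap (p : ℕ) [Fact p.Prime] (k : Type*) [Field k] [CharP k p] [PerfectRing k p]
    (e : ℕ) {σ : Type*} (α : σ →₀ ℕ) : MvPolynomial σ k →+ MvPolynomial σ k := by
  classical
  exact (Finsupp.liftAddHom fun m : σ →₀ ℕ =>
    if ∃ u : σ →₀ ℕ, m = α + p ^ e • u then
      (monomial (m.mapRange (fun t => t / p ^ e) (Nat.zero_div _)) :
        k →ₗ[k] MvPolynomial σ k).toAddMonoidHom.comp
        (iterateFrobeniusEquiv k p e).symm.toAddMonoidHom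
    else 0).comp (basisMonomials σ k).repr.toLinearMap.toAddMonoidHom

lemma dualMap_monomial (e : ℕ) {σ : Type*} (α : σ →₀ ℕ) (hα : ∀ i, α i < p ^ e) (u : σ →₀ ℕ)
    (c : k) : dualMap p k e α (monomial (α + p ^ e • u) c) =
      monomial u ((iterateFrobeniusEquiv k p e).symm c) := by
  classical
  have h1 : (basisMonomials σ k).repr (monomial (α + p ^ e • u) c) =
      Finsupp.single (α + p ^ e • u) c := by
    have : (monomial (α + p ^ e • u) c : MvPolynomial σ k) =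
        c • (basisMonomials σ k (α + p ^ e • u)) := by
      rw [coe_basisMonomials, smul_monomial, smul_eq_mul, mul_one]
    rw [this, map_smul, Module.Basis.repr_self, Finsupp.smul_single, smul_eq_mul, mul_one]
  rw [dualMap]
  show Finsupp.liftAddHom _ ((basisMonomials σ k).repr (monomial (α + p ^ e • u) c)) = _
  have hu : (α + p ^ e • u).mapRange (fun t => t / p ^ e) (Nat.zero_div _) = u := by
    ext i
    rw [Finsupp.mapRange_apply, Finsupp.add_apply, Finsupp.smul_apply, smul_eq_mul,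
      Nat.add_mul_div_left _ _ (pow_pos (Fact.out : p.Prime).pos e), Nat.div_eq_of_lt (hα i),
      zero_add]
  rw [h1, Finsupp.liftAddHom_apply_single, if_pos ⟨u, rfl⟩]
  show monomial _ _ = _
  rw [hu]
  rfl

lemma dualMap_monomial_of_not (e : ℕ) {σ : Type*} (α m : σ →₀ ℕ)
    (h : ¬ ∃ u : σ →₀ ℕ, m = α + p ^ e • u) (c : k) :
    dualMap p k e α (monomial m c) = 0 := by
  classical
  have h1 : (basisMonomials σ k).repr (monomial m c) = Finsupp.single m c := by
    have : (monomial m c : MvPolynomial σ k) = c • (basisMonomials σ k m) := by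
      rw [coe_basisMonomials, smul_monomial, smul_eq_mul, mul_one]
    rw [this, map_smul, Module.Basis.repr_self, Finsupp.smul_single, smul_eq_mul, mul_one]
  rw [dualMap]
  show Finsupp.liftAddHom _ ((basisMonomials σ k).repr (monomial m c)) = _
  rw [h1, Finsupp.liftAddHom_apply_single, if_neg h]
  rfl

lemma dualMap_pow_mul (e : ℕ) {σ : Type*} (α : σ →₀ ℕ) (hα : ∀ i, α i < p ^ e)
    (r s : MvPolynomial σ k) :
    dualMap p k e α (r ^ p ^ e * s) = r * dualMap p k e α s := by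
  classical
  induction r using MvPolynomial.induction_on' with
  | monomial v c =>
    induction s using MvPolynomial.induction_on' with
    | monomial m c' =>
      rw [monomial_pow, monomial_mul]
      by_cases h : ∃ u : σ →₀ ℕ, m = α + p ^ e • u
      · obtain ⟨u, rfl⟩ := h
        have h1 : p ^ e • v + (α + p ^ e • u) = α + p ^ e • (v + u) := by
          rw [smul_add]
          abel
        rw [h1, dualMap_monomial e α hα, dualMap_monomial e α hα, monomial_mul, map_mul]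
        congr 2
        rw [RingEquiv.symm_apply_eq, iterateFrobeniusEquiv_def]
      · rw [dualMap_monomial_of_not e α m h, mul_zero]
        apply dualMap_monomial_of_not
        rintro ⟨u, hu⟩
        apply h
        have h2 : ∀ i, p ^ e * v i + m i = α i + p ^ e * u i := by
          intro i
          have := DFunLike.congr_fun hu i
          simpa using this
        refine ⟨u - v, ?_⟩
        ext i
        rw [Finsupp.add_apply, Finsupp.smul_apply, Finsupp.tsub_apply, smul_eq_mul, Nat.mul_sub]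
        have h3 := h2 i
        have h4 : v i ≤ u i := by
          by_contra h5
          have h6 : u i + 1 ≤ v i := by omega
          have h7 : p ^ e * (u i + 1) ≤ p ^ e * v i := Nat.mul_le_mul_left _ h6
          have h8 := hα i
          rw [mul_add, mul_one] at h7
          omega
        have h5 : p ^ e * v i ≤ p ^ e * u i := Nat.mul_le_mul_left _ h4
        omega
    | add s t hs ht => rw [mul_add, map_add, hs, ht, map_add, mul_add]
  | add r t hr ht =>
    have : ExpChar (MvPolynomial σ k) p := ExpChar.prime Fact.out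
    rw [add_pow_expChar_pow, add_mul, map_add, hr, ht, add_mul]

lemma dualMap_mem (e : ℕ) {σ : Type*} (α : σ →₀ ℕ) (hα : ∀ i, α i < p ^ e)
    (I : Ideal (MvPolynomial σ k)) {f : MvPolynomial σ k} (hf : f ∈ frobPow (p ^ e) I) :
    dualMap p k e α f ∈ I := by
  rw [frobPow] at hf
  refine Submodule.span_induction (p := fun f _ => ∀ r, dualMap p k e α (r * f) ∈ I)
    ?_ ?_ ?_ ?_ hf 1 |> fun h => by rwa [one_mul] at h
  · rintro _ ⟨g, hg, rfl⟩ r
    rw [mul_comm, dualMap_pow_mul e α hα]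
    exact I.mul_mem_right _ hg
  · intro r
    rw [mul_zero, map_zero]
    exact I.zero_mem
  · intro f g _ _ hf hg r
    rw [mul_add, map_add]
    exact I.add_mem (hf r) (hg r)
  · intro s f _ hf r
    rw [smul_eq_mul, ← mul_assoc]
    exact hf _

/-- `x^{q (u + 1) - 1} ∈ 𝔟` implies `x^u ∈ 𝔟^{[1/q]}`. -/
lemma mem_frobRoot (e : ℕ) (b : Ideal (MvPolynomial (Fin 2) k)) (u v : ℕ)
    (h : (X 0 ^ (p ^ e * (u + 1) - 1) * X 1 ^ (p ^ e * (v + 1) - 1) :
      MvPolynomial (Fin 2) k) ∈ b) :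
    (X 0 ^ u * X 1 ^ v : MvPolynomial (Fin 2) k) ∈ frobRoot (p ^ e) b := by
  have hpp : p.Prime := Fact.out
  have hq : 0 < p ^ e := pow_pos hpp.pos e
  rw [frobRoot, Submodule.mem_sInf]
  intro J hJ
  let α : Fin 2 →₀ ℕ := Finsupp.single 0 (p ^ e - 1) + Finsupp.single 1 (p ^ e - 1)
  have hα : ∀ i, α i < p ^ e := by
    intro i
    fin_cases i
    · simp [α, hq]
    · simp [α, hq]
  have h1 := dualMap_mem e α hα J (hJ h)
  have h2 : (X 0 ^ (p ^ e * (u + 1) - 1) * X 1 ^ (p ^ e * (v + 1) - 1) :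
      MvPolynomial (Fin 2) k) =
      monomial (α + p ^ e • (Finsupp.single 0 u + Finsupp.single 1 v)) 1 := by
    have e1 : ∀ w, p ^ e * (w + 1) - 1 = p ^ e - 1 + p ^ e * w := by
      intro w
      rw [mul_add, mul_one]
      omega
    have e2 : (Finsupp.single 0 (p ^ e * (u + 1) - 1) + Finsupp.single 1 (p ^ e * (v + 1) - 1) :
        Fin 2 →₀ ℕ) = α + p ^ e • (Finsupp.single 0 u + Finsupp.single 1 v) := by
      ext i
      fin_cases i
      · simp [α, e1]
      · simp [α, e1]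
    rw [X_pow_eq_monomial, X_pow_eq_monomial, monomial_mul, one_mul, e2]
  rw [h2, dualMap_monomial e α hα, map_one, ← one_mul (1 : k), ← monomial_mul] at h1
  rw [X_pow_eq_monomial, X_pow_eq_monomial]
  exact h1

end Dual

/-! ### Monomials of bounded weight -/

section Weight

variable {k : Type*} [Field k]

/-- The ideal of the polynomials all of whose monomials `x^m` satisfy `N ≤ w_1 m_1 + w_2 m_2`. -/
def wtIdeal (w₁ w₂ N : ℕ) : Ideal (MvPolynomial (Fin 2) k) where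
  carrier := {f | ∀ m, coeff m f ≠ 0 → N ≤ w₁ * m 0 + w₂ * m 1}
  zero_mem' := by
    intro m hm
    exact absurd (coeff_zero m) hm
  add_mem' := by
    intro f g hf hg m hm
    rw [coeff_add] at hm
    by_cases h : coeff m f = 0
    · rw [h, zero_add] at hm
      exact hg m hm
    · exact hf m h
  smul_mem' := by
    classical
    intro c f hf m hm
    rw [smul_eq_mul, coeff_mul] at hm
    obtain ⟨⟨i, j⟩, hij, h⟩ := Finset.exists_ne_zero_of_sum_ne_zero hm
    rw [Finset.HasAntidiagonal.mem_antidiagonal] at hij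
    have h1 := hf j (right_ne_zero_of_mul h)
    simp only at hij
    subst hij
    rw [Finsupp.add_apply, Finsupp.add_apply]
    nlinarith [Nat.zero_le (w₁ * i 0), Nat.zero_le (w₂ * i 1)]

lemma mem_wtIdeal {w₁ w₂ N : ℕ} {f : MvPolynomial (Fin 2) k} :
    f ∈ (wtIdeal w₁ w₂ N : Ideal (MvPolynomial (Fin 2) k)) ↔
      ∀ m, coeff m f ≠ 0 → N ≤ w₁ * m 0 + w₂ * m 1 := Iff.rfl

lemma monomial_mem_wtIdeal {w₁ w₂ N : ℕ} (a b : ℕ) (h : N ≤ w₁ * a + w₂ * b) :
    (X 0 ^ a * X 1 ^ b : MvPolynomial (Fin 2) k) ∈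
      (wtIdeal w₁ w₂ N : Ideal (MvPolynomial (Fin 2) k)) := by
  classical
  intro m hm
  rw [X_pow_eq_monomial, X_pow_eq_monomial, monomial_mul, coeff_monomial] at hm
  split_ifs at hm with h1
  · subst h1
    simpa using h
  · exact absurd rfl hm

lemma mul_wtIdeal_le (w₁ w₂ N N' : ℕ) :
    (wtIdeal w₁ w₂ N * wtIdeal w₁ w₂ N' : Ideal (MvPolynomial (Fin 2) k)) ≤
      wtIdeal w₁ w₂ (N + N') := by
  classical
  rw [Ideal.mul_le]
  intro f hf g hg m hm
  rw [coeff_mul] at hm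
  obtain ⟨⟨i, j⟩, hij, h⟩ := Finset.exists_ne_zero_of_sum_ne_zero hm
  rw [Finset.HasAntidiagonal.mem_antidiagonal] at hij
  have h1 := hf i (left_ne_zero_of_mul h)
  have h2 := hg j (right_ne_zero_of_mul h)
  simp only at hij
  subst hij
  rw [Finsupp.add_apply, Finsupp.add_apply]
  nlinarith

lemma pow_le_wtIdeal {w₁ w₂ N : ℕ} {a : Ideal (MvPolynomial (Fin 2) k)}
    (h : a ≤ wtIdeal w₁ w₂ N) (n : ℕ) : a ^ n ≤ wtIdeal w₁ w₂ (n * N) := by
  induction n with
  | zero =>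
    intro f _ m _
    omega
  | succ n ih =>
    rw [pow_succ]
    refine (Ideal.mul_mono ih h).trans ((mul_wtIdeal_le _ _ _ _).trans (le_of_eq ?_))
    congr 1
    ring

/-- If every monomial outside `(x^q, y^{2q})` has weight less than `N`, then the ideal of weight at
least `N` lies in `(x, y^2)^{[q]}`. -/
lemma wtIdeal_le_frobPow (w₁ w₂ N q : ℕ)
    (h : ∀ a b : ℕ, a < q → b < 2 * q → w₁ * a + w₂ * b < N) :
    (wtIdeal w₁ w₂ N : Ideal (MvPolynomial (Fin 2) k)) ≤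
      frobPow q (Ideal.span {X 0, X 1 ^ 2}) := by
  intro f hf
  rw [f.as_sum]
  refine Ideal.sum_mem _ fun m hm => ?_
  have h1 := hf m (mem_support_iff.1 hm)
  have h2 : q ≤ m 0 ∨ 2 * q ≤ m 1 := by
    by_contra h3
    push Not at h3
    exact absurd (h _ _ h3.1 h3.2) (not_lt.2 h1)
  rcases h2 with h2 | h2
  · have h3 : (X 0 ^ q : MvPolynomial (Fin 2) k) ∈ frobPow q (Ideal.span {X 0, X 1 ^ 2}) :=
      Ideal.subset_span ⟨X 0, Ideal.subset_span (by simp), rfl⟩
    have h4 : monomial m (coeff m f) = monomial (m - Finsupp.single 0 q) (coeff m f) * X 0 ^ q := by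
      rw [X_pow_eq_monomial, monomial_mul, mul_one, tsub_add_cancel_of_le]
      rwa [Finsupp.single_le_iff]
    rw [h4]
    exact Ideal.mul_mem_left _ _ h3
  · have h3 : ((X 1 ^ 2) ^ q : MvPolynomial (Fin 2) k) ∈
        frobPow q (Ideal.span {X 0, X 1 ^ 2}) :=
      Ideal.subset_span ⟨X 1 ^ 2, Ideal.subset_span (by simp), rfl⟩
    have h4 : monomial m (coeff m f) =
        monomial (m - Finsupp.single 1 (2 * q)) (coeff m f) * (X 1 ^ 2) ^ q := by
      rw [← pow_mul, X_pow_eq_monomial, monomial_mul, mul_one, tsub_add_cancel_of_le]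
      rwa [Finsupp.single_le_iff]
    rw [h4]
    exact Ideal.mul_mem_left _ _ h3

/-- The ideal of the monomials divisible by `y^N` with `N ≥ q` lies in `(y)^{[q]}`. -/
lemma wtIdeal_le_frobPow' (N q : ℕ) (h : q ≤ N) :
    (wtIdeal 0 1 N : Ideal (MvPolynomial (Fin 2) k)) ≤ frobPow q (Ideal.span {X 1}) := by
  intro f hf
  rw [f.as_sum]
  refine Ideal.sum_mem _ fun m hm => ?_
  have h1 := hf m (mem_support_iff.1 hm)
  have h2 : q ≤ m 1 := by omega
  have h3 : (X 1 ^ q : MvPolynomial (Fin 2) k) ∈ frobPow q (Ideal.span {X 1}) :=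
    Ideal.subset_span ⟨X 1, Ideal.subset_span (by simp), rfl⟩
  have h4 : monomial m (coeff m f) = monomial (m - Finsupp.single 1 q) (coeff m f) * X 1 ^ q := by
    rw [X_pow_eq_monomial, monomial_mul, mul_one, tsub_add_cancel_of_le]
    rwa [Finsupp.single_le_iff]
  rw [h4]
  exact Ideal.mul_mem_left _ _ h3

end Weight

/-! ### The example -/

section Example

variable {k : Type*} [Field k]

/-- `𝔞_1 = (y^4, x^2 y)`. -/
noncomputable def a1 (k : Type*) [Field k] : Ideal (MvPolynomial (Fin 2) k) :=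
  Ideal.span {X 1 ^ 4, X 0 ^ 2 * X 1}

/-- `𝔞_2 = (x^3 y^7, x^4 y^3)`. -/
noncomputable def a2 (k : Type*) [Field k] : Ideal (MvPolynomial (Fin 2) k) :=
  Ideal.span {X 0 ^ 3 * X 1 ^ 7, X 0 ^ 4 * X 1 ^ 3}

/-- The ideals `𝔞_1, 𝔞_2` followed by `m` copies of the unit ideal. -/
noncomputable def fam (k : Type*) [Field k] (m : ℕ) :
    Fin (m + 2) → Ideal (MvPolynomial (Fin 2) k) :=
  Fin.cons (a1 k) (Fin.cons (a2 k) fun _ => ⊤)

/-- The ideal `(x, y^2)`. -/
noncomputable def J (k : Type*) [Field k] : Ideal (MvPolynomial (Fin 2) k) :=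
  Ideal.span {X 0, X 1 ^ 2}

lemma prod_fam (m : ℕ) (n : Fin (m + 2) → ℕ) :
    ∏ i, fam k m i ^ n i = a1 k ^ n 0 * a2 k ^ n 1 := by
  rw [Fin.prod_univ_succ, Fin.prod_univ_succ]
  have h : ∏ i : Fin m, fam k m i.succ.succ ^ n i.succ.succ = 1 := by
    apply Finset.prod_eq_one
    intro i _
    show (⊤ : Ideal (MvPolynomial (Fin 2) k)) ^ _ = 1
    rw [← Ideal.one_eq_top, one_pow]
  rw [h, mul_one]
  rfl

lemma monomial_mem (i j i' j' A B : ℕ) (hA : 2 * j + 3 * i' + 4 * j' ≤ A)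
    (hB : 4 * i + j + 7 * i' + 3 * j' ≤ B) :
    (X 0 ^ A * X 1 ^ B : MvPolynomial (Fin 2) k) ∈ a1 k ^ (i + j) * a2 k ^ (i' + j') := by
  have h1 : (X 1 ^ 4 : MvPolynomial (Fin 2) k) ^ i ∈ a1 k ^ i :=
    Ideal.pow_mem_pow (Ideal.subset_span (by simp)) i
  have h2 : (X 0 ^ 2 * X 1 : MvPolynomial (Fin 2) k) ^ j ∈ a1 k ^ j :=
    Ideal.pow_mem_pow (Ideal.subset_span (by simp)) j
  have h3 : (X 0 ^ 3 * X 1 ^ 7 : MvPolynomial (Fin 2) k) ^ i' ∈ a2 k ^ i' :=
    Ideal.pow_mem_pow (Ideal.subset_span (by simp)) i'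
  have h4 : (X 0 ^ 4 * X 1 ^ 3 : MvPolynomial (Fin 2) k) ^ j' ∈ a2 k ^ j' :=
    Ideal.pow_mem_pow (Ideal.subset_span (by simp)) j'
  have h5 := Ideal.mul_mem_mul (Ideal.mul_mem_mul h1 h2) (Ideal.mul_mem_mul h3 h4)
  rw [← pow_add, ← pow_add] at h5
  obtain ⟨A', rfl⟩ := Nat.exists_eq_add_of_le hA
  obtain ⟨B', rfl⟩ := Nat.exists_eq_add_of_le hB
  have h6 : (X 0 ^ (2 * j + 3 * i' + 4 * j' + A') * X 1 ^ (4 * i + j + 7 * i' + 3 * j' + B') :
      MvPolynomial (Fin 2) k) = (X 0 ^ A' * X 1 ^ B') *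
      ((X 1 ^ 4) ^ i * (X 0 ^ 2 * X 1) ^ j * ((X 0 ^ 3 * X 1 ^ 7) ^ i' * (X 0 ^ 4 * X 1 ^ 3) ^ j')) := by
    ring
  rw [h6]
  exact Ideal.mul_mem_left _ _ h5

lemma a1_le (w₁ w₂ N : ℕ) (h1 : N ≤ w₁ * 0 + w₂ * 4) (h2 : N ≤ w₁ * 2 + w₂ * 1) :
    a1 k ≤ wtIdeal w₁ w₂ N := by
  rw [a1, Ideal.span_le]
  rintro f (rfl | rfl)
  · have := monomial_mem_wtIdeal (k := k) 0 4 h1
    simpa using this
  · have := monomial_mem_wtIdeal (k := k) 2 1 h2
    simpa using this

lemma a2_le (w₁ w₂ N : ℕ) (h1 : N ≤ w₁ * 3 + w₂ * 7) (h2 : N ≤ w₁ * 4 + w₂ * 3) :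
    a2 k ≤ wtIdeal w₁ w₂ N := by
  rw [a2, Ideal.span_le]
  rintro f (rfl | rfl)
  · exact monomial_mem_wtIdeal (k := k) 3 7 h1
  · exact monomial_mem_wtIdeal (k := k) 4 3 h2

lemma prod_le (w₁ w₂ N N' n n' : ℕ) (h : a1 k ≤ wtIdeal w₁ w₂ N) (h' : a2 k ≤ wtIdeal w₁ w₂ N') :
    a1 k ^ n * a2 k ^ n' ≤ wtIdeal w₁ w₂ (n * N + n' * N') :=
  (Ideal.mul_mono (pow_le_wtIdeal h n) (pow_le_wtIdeal h' n')).trans (mul_wtIdeal_le _ _ _ _)

lemma X1_not_mem_J : (X 1 : MvPolynomial (Fin 2) k) ∉ J k := by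
  classical
  intro h
  have h1 : J k ≤ wtIdeal 2 1 2 := by
    rw [J, Ideal.span_le]
    rintro f (rfl | rfl)
    · have := monomial_mem_wtIdeal (k := k) (w₁ := 2) (w₂ := 1) (N := 2) 1 0 (by norm_num)
      simpa using this
    · have := monomial_mem_wtIdeal (k := k) (w₁ := 2) (w₂ := 1) (N := 2) 0 2 (by norm_num)
      simpa using this
  have h2 := h1 h (Finsupp.single 1 1) (by
    rw [coeff_X]
    simp)
  simp at h2

lemma X0_not_mem : (X 0 : MvPolynomial (Fin 2) k) ∉ Ideal.span {(X 1 : MvPolynomial (Fin 2) k)} := by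
  classical
  intro h
  have h1 : Ideal.span {(X 1 : MvPolynomial (Fin 2) k)} ≤ wtIdeal 0 1 1 := by
    rw [Ideal.span_le]
    rintro f rfl
    have := monomial_mem_wtIdeal (k := k) (w₁ := 0) (w₂ := 1) (N := 1) 0 1 (by norm_num)
    simpa using this
  have h2 := h1 h (Finsupp.single 0 1) (by
    rw [coeff_X]
    simp)
  simp at h2

lemma testIdeal_fam (p m : ℕ) (t : Fin (m + 2) → ℝ) : testIdeal p (fam k m) t =
    ⨆ e : ℕ, frobRoot (p ^ e) (a1 k ^ ⌈t 0 * (p : ℝ) ^ e⌉₊ * a2 k ^ ⌈t 1 * (p : ℝ) ^ e⌉₊) := by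
  rw [testIdeal]
  congr 1
  funext e
  rw [prod_fam]

variable {p : ℕ} [Fact p.Prime] [CharP k p] [PerfectRing k p]

lemma exists_large (N : ℕ) (p : ℕ) (hp : p.Prime) : ∃ e : ℕ, N ≤ p ^ e :=
  ⟨N, (Nat.lt_pow_self hp.one_lt).le⟩

lemma mem_testIdeal (m : ℕ) (t : Fin (m + 2) → ℝ) (u v e : ℕ)
    (h : (X 0 ^ (p ^ e * (u + 1) - 1) * X 1 ^ (p ^ e * (v + 1) - 1) : MvPolynomial (Fin 2) k) ∈
      a1 k ^ ⌈t 0 * (p : ℝ) ^ e⌉₊ * a2 k ^ ⌈t 1 * (p : ℝ) ^ e⌉₊) :
    (X 0 ^ u * X 1 ^ v : MvPolynomial (Fin 2) k) ∈ testIdeal p (fam k m) t := by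
  rw [testIdeal_fam]
  exact Ideal.mem_iSup_of_mem e (mem_frobRoot e _ u v h)

/-- The point `(9/10, 0, …)`. -/
lemma testIdeal_A (m : ℕ) (t : Fin (m + 2) → ℝ) (h0 : t 0 = 9 / 10) (h1 : t 1 = 0) :
    testIdeal p (fam k m) t = J k := by
  have hpp : p.Prime := Fact.out
  apply le_antisymm
  · rw [testIdeal_fam]
    refine iSup_le fun e => sInf_le ?_
    have hle := prod_le (k := k) 3 2 8 0 ⌈t 0 * (p : ℝ) ^ e⌉₊ ⌈t 1 * (p : ℝ) ^ e⌉₊
      (a1_le 3 2 8 (by norm_num) (by norm_num)) (a2_le 3 2 0 (by norm_num) (by norm_num))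
    refine hle.trans (wtIdeal_le_frobPow 3 2 _ _ ?_)
    intro a b ha hb
    have hn := Nat.le_ceil (t 0 * (p : ℝ) ^ e)
    rw [h0] at hn
    have ha' : (a : ℝ) + 1 ≤ (p : ℝ) ^ e := by exact_mod_cast ha
    have hb' : (b : ℝ) + 1 ≤ 2 * (p : ℝ) ^ e := by exact_mod_cast hb
    have hgoal : (3 * a + 2 * b : ℝ) < (⌈9 / 10 * (p : ℝ) ^ e⌉₊ : ℝ) * 8 := by linarith
    rw [h0]
    have : 3 * a + 2 * b < ⌈9 / 10 * (p : ℝ) ^ e⌉₊ * 8 := by exact_mod_cast hgoal
    omega
  · obtain ⟨e, he⟩ := exists_large 20 p hpp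
    have hn : ⌈t 0 * (p : ℝ) ^ e⌉₊ ≤ p ^ e - 1 := by
      rw [Nat.ceil_le, h0, Nat.cast_sub (by omega)]
      push_cast
      have : (20 : ℝ) ≤ (p : ℝ) ^ e := by exact_mod_cast he
      linarith
    have hn' : ⌈t 1 * (p : ℝ) ^ e⌉₊ = 0 := by rw [h1, zero_mul, Nat.ceil_zero]
    set n := ⌈t 0 * (p : ℝ) ^ e⌉₊ with hndef
    rw [J, Ideal.span_le]
    rintro f (rfl | rfl)
    · have h2 : (X 0 ^ 1 * X 1 ^ 0 : MvPolynomial (Fin 2) k) ∈ testIdeal p (fam k m) t := by
        apply mem_testIdeal m t 1 0 e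
        rw [hn', ← hndef]
        have := monomial_mem (k := k) 0 n 0 0 (p ^ e * (1 + 1) - 1) (p ^ e * (0 + 1) - 1)
          (by omega) (by omega)
        simpa using this
      simpa using h2
    · have h2 : (X 0 ^ 0 * X 1 ^ 2 : MvPolynomial (Fin 2) k) ∈ testIdeal p (fam k m) t := by
        apply mem_testIdeal m t 0 2 e
        rw [hn', ← hndef]
        have := monomial_mem (k := k) ((n + 1) / 2) (n - (n + 1) / 2) 0 0 (p ^ e * (0 + 1) - 1)
          (p ^ e * (2 + 1) - 1) (by omega) (by omega)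
        rwa [Nat.add_sub_cancel' (by omega : (n + 1) / 2 ≤ n)] at this
      simpa using h2

/-- The point `(0, 8/25, …)`. -/
lemma testIdeal_B (m : ℕ) (t : Fin (m + 2) → ℝ) (h0 : t 0 = 0) (h1 : t 1 = 8 / 25) :
    testIdeal p (fam k m) t = J k := by
  have hpp : p.Prime := Fact.out
  apply le_antisymm
  · rw [testIdeal_fam]
    refine iSup_le fun e => sInf_le ?_
    have hle := prod_le (k := k) 4 1 0 19 ⌈t 0 * (p : ℝ) ^ e⌉₊ ⌈t 1 * (p : ℝ) ^ e⌉₊
      (a1_le 4 1 0 (by norm_num) (by norm_num)) (a2_le 4 1 19 (by norm_num) (by norm_num))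
    refine hle.trans (wtIdeal_le_frobPow 4 1 _ _ ?_)
    intro a b ha hb
    have hn := Nat.le_ceil (t 1 * (p : ℝ) ^ e)
    rw [h1] at hn
    have ha' : (a : ℝ) + 1 ≤ (p : ℝ) ^ e := by exact_mod_cast ha
    have hb' : (b : ℝ) + 1 ≤ 2 * (p : ℝ) ^ e := by exact_mod_cast hb
    have hgoal : (4 * a + b : ℝ) < (⌈8 / 25 * (p : ℝ) ^ e⌉₊ : ℝ) * 19 := by linarith
    rw [h1]
    have : 4 * a + b < ⌈8 / 25 * (p : ℝ) ^ e⌉₊ * 19 := by exact_mod_cast hgoal
    omega
  · obtain ⟨e, he⟩ := exists_large 100 p hpp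
    have hlt : ⌈t 1 * (p : ℝ) ^ e⌉₊ * 3 ≤ p ^ e - 1 := by
      have hc := Nat.ceil_lt_add_one (R := ℝ) (a := t 1 * (p : ℝ) ^ e) (by rw [h1]; positivity)
      rw [h1] at hc ⊢
      have h100 : (100 : ℝ) ≤ (p : ℝ) ^ e := by exact_mod_cast he
      have h3 : (⌈8 / 25 * (p : ℝ) ^ e⌉₊ : ℝ) * 3 < (p : ℝ) ^ e := by linarith
      have h4 : ⌈8 / 25 * (p : ℝ) ^ e⌉₊ * 3 < p ^ e := by exact_mod_cast h3
      omega
    have hn' : ⌈t 0 * (p : ℝ) ^ e⌉₊ = 0 := by rw [h0, zero_mul, Nat.ceil_zero]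
    set n := ⌈t 1 * (p : ℝ) ^ e⌉₊ with hndef
    rw [J, Ideal.span_le]
    rintro f (rfl | rfl)
    · have h2 : (X 0 ^ 1 * X 1 ^ 0 : MvPolynomial (Fin 2) k) ∈ testIdeal p (fam k m) t := by
        apply mem_testIdeal m t 1 0 e
        rw [hn', ← hndef]
        have := monomial_mem (k := k) 0 0 0 n (p ^ e * (1 + 1) - 1) (p ^ e * (0 + 1) - 1)
          (by omega) (by omega)
        simpa using this
      simpa using h2
    · have h2 : (X 0 ^ 0 * X 1 ^ 2 : MvPolynomial (Fin 2) k) ∈ testIdeal p (fam k m) t := by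
        apply mem_testIdeal m t 0 2 e
        rw [hn', ← hndef]
        have := monomial_mem (k := k) 0 0 n 0 (p ^ e * (0 + 1) - 1) (p ^ e * (2 + 1) - 1)
          (by omega) (by omega)
        simpa using this
      simpa using h2

/-- On the ray `t_1 = t_2` the mixed test ideal never equals `(x, y^2)`. -/
lemma testIdeal_diag (m : ℕ) (t : Fin (m + 2) → ℝ) (r : ℝ) (hr : 0 ≤ r) (h0 : t 0 = r)
    (h1 : t 1 = r) : testIdeal p (fam k m) t ≠ J k := by
  have hpp : p.Prime := Fact.out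
  intro h
  by_cases hr4 : r < 1 / 4
  · apply X1_not_mem_J (k := k)
    rw [← h]
    obtain ⟨N, hN⟩ := exists_nat_gt (5 / (1 - 4 * r))
    obtain ⟨e, he⟩ := exists_large N p hpp
    have hpos : 0 < 1 - 4 * r := by linarith
    have hlt : ⌈r * (p : ℝ) ^ e⌉₊ * 4 ≤ p ^ e - 1 := by
      have hc := Nat.ceil_lt_add_one (R := ℝ) (a := r * (p : ℝ) ^ e) (by positivity)
      have hq : (N : ℝ) ≤ (p : ℝ) ^ e := by exact_mod_cast he
      have h5 : 5 < (1 - 4 * r) * (p : ℝ) ^ e := by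
        rw [div_lt_iff₀ hpos] at hN
        nlinarith
      have h3 : (⌈r * (p : ℝ) ^ e⌉₊ : ℝ) * 4 < (p : ℝ) ^ e := by nlinarith
      have h4 : ⌈r * (p : ℝ) ^ e⌉₊ * 4 < p ^ e := by exact_mod_cast h3
      omega
    have h2 : (X 0 ^ 0 * X 1 ^ 1 : MvPolynomial (Fin 2) k) ∈ testIdeal p (fam k m) t := by
      apply mem_testIdeal m t 0 1 e
      rw [h0, h1]
      set n := ⌈r * (p : ℝ) ^ e⌉₊
      have hq0 : 1 ≤ p ^ e := Nat.one_le_iff_ne_zero.2 (pow_ne_zero _ hpp.ne_zero)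
      have := monomial_mem (k := k) n 0 0 n (p ^ e * (0 + 1) - 1) (p ^ e * (1 + 1) - 1)
        (by omega) (by omega)
      simpa using this
    simpa using h2
  · push Not at hr4
    apply X0_not_mem (k := k)
    have h2 : (X 0 : MvPolynomial (Fin 2) k) ∈ testIdeal p (fam k m) t := by
      rw [h]
      exact Ideal.subset_span (by simp)
    have h3 : testIdeal p (fam k m) t ≤ Ideal.span {(X 1 : MvPolynomial (Fin 2) k)} := by
      rw [testIdeal_fam]
      refine iSup_le fun e => sInf_le ?_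
      have hle := prod_le (k := k) 0 1 1 3 ⌈t 0 * (p : ℝ) ^ e⌉₊ ⌈t 1 * (p : ℝ) ^ e⌉₊
        (a1_le 0 1 1 (by norm_num) (by norm_num)) (a2_le 0 1 3 (by norm_num) (by norm_num))
      refine hle.trans (wtIdeal_le_frobPow' _ _ ?_)
      rw [h0, h1]
      have hn := Nat.le_ceil (r * (p : ℝ) ^ e)
      have hq : (0 : ℝ) ≤ (p : ℝ) ^ e := by positivity
      have h5 : (p : ℝ) ^ e ≤ (⌈r * (p : ℝ) ^ e⌉₊ : ℝ) * 1 + (⌈r * (p : ℝ) ^ e⌉₊ : ℝ) * 3 := by
        nlinarith
      exact_mod_cast h5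
    exact h3 h2

/-- The constancy region is not preconnected. -/
lemma not_isPreconnected (m : ℕ) (c : Fin (m + 2) → ℝ) (hc : testIdeal p (fam k m) c = J k) :
    ¬ IsPreconnected (region p (fam k m) c) := by
  intro H
  have hA : (Fin.cons (9 / 10) (Fin.cons 0 fun _ => 0) : Fin (m + 2) → ℝ) ∈
      region p (fam k m) c := by
    refine ⟨fun i => ?_, ?_⟩
    · refine Fin.cases ?_ (fun i => Fin.cases ?_ (fun i => ?_) i) i
      · norm_num
      · exact le_rfl
      · exact le_rfl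
    · rw [hc]
      exact testIdeal_A m _ rfl rfl
  have hB : (Fin.cons 0 (Fin.cons (8 / 25) fun _ => 0) : Fin (m + 2) → ℝ) ∈
      region p (fam k m) c := by
    refine ⟨fun i => ?_, ?_⟩
    · refine Fin.cases ?_ (fun i => Fin.cases ?_ (fun i => ?_) i) i
      · exact le_rfl
      · show (0 : ℝ) ≤ 8 / 25
        norm_num
      · exact le_rfl
    · rw [hc]
      exact testIdeal_B m _ rfl rfl
  have hu : IsOpen {t : Fin (m + 2) → ℝ | t 1 < t 0} :=
    isOpen_lt (continuous_apply 1) (continuous_apply 0)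
  have hv : IsOpen {t : Fin (m + 2) → ℝ | t 0 < t 1} :=
    isOpen_lt (continuous_apply 0) (continuous_apply 1)
  obtain ⟨t, -, ht1, ht2⟩ := H _ _ hu hv
    (by
      rintro t ⟨ht0, ht⟩
      rcases lt_trichotomy (t 0) (t 1) with h | h | h
      · exact Or.inr h
      · exact absurd (ht.trans hc) (testIdeal_diag m t (t 0) (ht0 0) rfl h.symm)
      · exact Or.inl h)
    ⟨_, hA, by
      show (0 : ℝ) < 9 / 10
      norm_num⟩
    ⟨_, hB, by
      show (0 : ℝ) < 8 / 25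
      norm_num⟩
  exact lt_asymm (show t 1 < t 0 from ht1) (show t 0 < t 1 from ht2)

end Example

/-- For every prime `p`, every perfect field `k` of characteristic `p` and every `n ≥ 2` there are
ideals `𝔞_1, …, 𝔞_n` of `k[x, y]` and a point `𝐜` whose constancy region is not connected (and not
path-connected). -/
theorem result (p : ℕ) [Fact p.Prime] (k : Type*) [Field k] [CharP k p] [PerfectRing k p]
    (n : ℕ) (hn : 2 ≤ n) :
    ∃ (a : Fin n → Ideal (MvPolynomial (Fin 2) k)) (c : Fin n → ℝ), (∀ i, 0 ≤ c i) ∧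
      ¬ IsConnected (region p a c) ∧ ¬ IsPreconnected (region p a c) ∧
      ¬ IsPathConnected (region p a c) := by
  obtain ⟨m, rfl⟩ : ∃ m, n = m + 2 := ⟨n - 2, by omega⟩
  have h := not_isPreconnected (p := p) (k := k) m (Fin.cons (9 / 10) (Fin.cons 0 fun _ => 0))
    (testIdeal_A m _ rfl rfl)
  refine ⟨fam k m, Fin.cons (9 / 10) (Fin.cons 0 fun _ => 0), fun i => ?_,
    fun h' => h h'.isPreconnected, h, fun h' => h h'.isConnected.isPreconnected⟩
  refine Fin.cases ?_ (fun i => Fin.cases ?_ (fun i => ?_) i) i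
  · norm_num
  · exact le_rfl
  · exact le_rfl

end Pool.Agent.Results.MP_e15572_ag.DisconnectedRegion
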